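import Pool.Agent.Helper76.SGC1.Asm
import Pool.Agent.Helper2.SGC1.SIEA
import Pool.Agent.Helper35.SGC1.NFB
import Pool.Agent.Helper35.SGC1.SPL
import Pool.Agent.Helper37.SGC1.KEYA
import Pool.Agent.Helper54.SGC1.CARDA
import Pool.Agent.Helper7.SGC1.CNTA
import Pool.Agent.Helper78.SGC1.EXPA
import Pool.Agent.Helper78.SGC1.PRNC
import Pool.Agent.Helper78.SGC1.VANA
import Pool.Agent.Helper87.SGC1.BRN
import Pool.Agent.Helper24.SGC.HOUS
import Pool.Agent.Helper96.SGC.MON
import Pool.Agent.Helper12.SGB.All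

/-!
# Project SG, part 1: the auxiliary function, unconditional
-/

set_option autoImplicit false

namespace Pool.Agent.Helper76.SGC1

theorem aux : Pool.Agent.Helper42.SG.AUX :=
  asm Pool.Agent.Helper12.SGB.th_ECOEF Pool.Agent.Helper24.SGC.hous Pool.Agent.Helper96.SGC.mon
    Pool.Agent.Helper35.SGC1.spl Pool.Agent.Helper35.SGC1.nfb Pool.Agent.Helper7.SGC1.cnta
    Pool.Agent.Helper54.SGC1.carda Pool.Agent.Helper2.SGC1.siea Pool.Agent.Helper78.SGC1.expa
    Pool.Agent.Helper78.SGC1.vana Pool.Agent.Helper87.SGC1.brn Pool.Agent.Helper78.SGC1.prn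
    Pool.Agent.Helper37.SGC1.keya

end Pool.Agent.Helper76.SGC1
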