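import Pool.Agent.Helper76.SGC.Goals

/-!
# Project SG, part 1: packet AUXA (assembly of the auxiliary function)
-/

set_option autoImplicit false

open MvPolynomial

namespace Pool.Agent.Helper76.SGC1

open WeierstrassCurve Height
open Pool.Agent.Helper29.BL Pool.Agent.Helper92.Ru Pool.Agent.Helper42.SG Pool.Agent.Helper76.SGC
open Pool.Agent.Helper77.SGC (Arr sh N0 Forb HOUS MON)

theorem arr_of (hE : ECOEF) (K : Type) [Field K] [NumberField K] (W : Affine K) :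
    ∃ (B : AbsoluteValue K ℝ → ℝ) (D : ℕ), PlC B ∧ 0 < D ∧
      ∀ e M : ℕ, ∃ G : Bool → ℕ → Fin 2 → ℕ → ℕ → K, Arr W B D e M G := by
  obtain ⟨B, D, hB, hD, h⟩ := hE K W
  refine ⟨B, D, hB, hD, fun e M => ?_⟩
  have h2 : ∀ (l : Bool) (m : ℕ), ∃ G : Fin 2 → ℕ → ℕ → K, m ≤ M →
      (∀ μ i g, G μ i g ≠ 0 → i + 2 * μ.val ≤ 2 * 4 ^ e * M ∧ g + 2 * μ.val ≤ 2 * M) ∧
        (∀ v μ i g, v (G μ i g) ≤ B v ^ (4 ^ e * M)) ∧
        (∀ μ i g, IsIntegral ℤ ((D : K) ^ (4 ^ e * M) * G μ i g)) ∧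
        ∀ (A : Type) [CommRing A] [Algebra K A] (x c η : A),
          η ^ 2 = Bf (W.map (algebraMap K A)) x * Bf (W.map (algebraMap K A)) c →
          (law (W.map (algebraMap K A)) e l x c η).1 ^ (M - m) *
            (law (W.map (algebraMap K A)) e l x c η).2 ^ m =
          ∑ μ : Fin 2, ∑ i ∈ Finset.range (2 * 4 ^ e * M + 1), ∑ g ∈ Finset.range (2 * M + 1),
            algebraMap K A (G μ i g) * (η ^ μ.val * x ^ i * c ^ g) := by
    intro l m
    by_cases hm : m ≤ M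
    · obtain ⟨G, hG⟩ := h e M m l hm
      exact ⟨G, fun _ => hG⟩
    · exact ⟨fun _ _ _ => 0, fun h => absurd h hm⟩
  choose G hG using h2
  exact ⟨G, ⟨fun l m hm => (hG l m hm).1, fun l m hm => (hG l m hm).2.1,
    fun l m hm => (hG l m hm).2.2.1, fun l m hm => (hG l m hm).2.2.2⟩⟩

theorem auxa : AUXA := by
  intro hE hS hK K _ _ W n k0 hn
  have hn1 : 1 ≤ n := by
    have : 0 < 288 * (k0 + 2) ^ 2 := by positivity
    omega
  choose B D hB hD G hG using fun i : ℕ => arr_of hE K (W i)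
  obtain ⟨C, hC, hS⟩ := hS K W B D (fun i v => (hB i).one_le v) hD n k0 hn
  obtain ⟨B', hB', hK⟩ := hK K W B D n k0 hB hn1
  refine ⟨C, B', hB', hC, fun e => ?_⟩
  have hA : ArrV W B D n e (fun h => G (h % 2) (e (h / 2)) n) :=
    fun h _ => hG (h % 2) (e (h / 2)) n
  obtain ⟨c, hc0, hci, hch, hcc⟩ := hS e _ hA
  exact ⟨c, hc0, hci, hch, hK e _ hA c hcc⟩

end Pool.Agent.Helper76.SGC1
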