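import Pool.Agent.Helper76.SGC1.AUXA

/-!
# Project SG, part 1: assembly of the auxiliary function from the packets
-/

set_option autoImplicit false

open MvPolynomial

namespace Pool.Agent.Helper76.SGC1

open WeierstrassCurve Height
open Pool.Agent.Helper29.BL Pool.Agent.Helper92.Ru Pool.Agent.Helper42.SG Pool.Agent.Helper76.SGC
open Pool.Agent.Helper77.SGC (Arr sh N0 Forb HOUS MON)

theorem asm (hECOEF : ECOEF) (hHOUS : HOUS) (hMON : MON) (hSPL : SPL)
    (hNFB : NFB) (hCNTA : CNTA)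
    (hCARDA : SPL → CARDA) (hSIEA : CARDA → HOUS → SIEA) (hEXPA : EXPA) (hVANA : SPL → VANA)
    (hBRN : NFB → BRN) (hPRN : MON → PRN)
    (hKEYA : EXPA → VANA → NFB → BRN → PRN → CNTA → KEYA) : AUX :=
  auxa hECOEF (hSIEA (hCARDA hSPL) hHOUS)
    (hKEYA hEXPA (hVANA hSPL) hNFB (hBRN hNFB) (hPRN hMON) hCNTA)

end Pool.Agent.Helper76.SGC1
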